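import Pool.Agent.Helper92.TG.GoalsX
import Pool.Agent.Helper29.BL.QSN

/-!
# Project TG (MP_a41896_nt), CM version, packet HTRG: heights of `ρ P`
-/

set_option autoImplicit false

open Polynomial

namespace Pool.Agent.Helper33.TG.HTRG

open WeierstrassCurve Height
open Pool.Agent.Helper29.BL Pool.Agent.Helper42.SG
open Pool.Agent.Helper60.T3 (WL zd)
open Pool.Agent.Helper42.TG (RAct acK)
open Pool.Agent.Helper92.TG (HTAB)

noncomputable section

/-- the formula of `RAct.rat` for the `K`-points -/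
lemma ratK {K : Type} [Field K] [DecidableEq K] {W : Affine K} {R : Subring K}
    {ac : ∀ (F : Type) [Field F] [DecidableEq F] [Algebra K F],
      R →+* AddMonoid.End (WL F W).Point} (h : RAct W R ac) (ρ : R) (hρ : ρ ≠ 0) :
    ∃ A B : K[X], IsCoprime A B ∧ B.natDegree < A.natDegree ∧ ∀ P : W.Point, P ≠ 0 →
      (acK ac ρ P = 0 ↔ eval (xc P) B = 0) ∧ (acK ac ρ P ≠ 0 →
        xc (acK ac ρ P) * eval (xc P) B = eval (xc P) A) := by
  obtain ⟨A, B, hAB, hd, h1⟩ := h.rat ρ hρ
  refine ⟨A, B, hAB, hd, fun P hP => ?_⟩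
  obtain ⟨h2, h3⟩ := h1 K P hP
  exact ⟨h2, fun h4 => (h3 h4).1⟩

/-- two quadratic functions, `|f (x) - n g (x)| ≤ C` implies equality -/
lemma quad_eq {G : Type} [AddCommGroup G] (f g : G → ℝ) (hf : ∀ (m : ℕ) x, f (m • x) = (m : ℝ) ^ 2 * f x)
    (hg : ∀ (m : ℕ) x, g (m • x) = (m : ℝ) ^ 2 * g x) (c C : ℝ)
    (h : ∀ x, |f x - c * g x| ≤ C) (x : G) : f x = c * g x := by
  by_contra hne
  have h1 : 0 < |f x - c * g x| := abs_pos.2 (sub_ne_zero.2 hne)
  obtain ⟨m, hm⟩ := exists_nat_gt (C / |f x - c * g x|)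
  have h2 := h ((m + 1) • x)
  rw [hf, hg] at h2
  have h3 : ((m + 1 : ℕ) : ℝ) ^ 2 * f x - c * (((m + 1 : ℕ) : ℝ) ^ 2 * g x) =
      ((m + 1 : ℕ) : ℝ) ^ 2 * (f x - c * g x) := by ring
  rw [h3, abs_mul, abs_of_nonneg (by positivity : (0 : ℝ) ≤ ((m + 1 : ℕ) : ℝ) ^ 2)] at h2
  have h4 : C < (m : ℝ) * |f x - c * g x| := by rwa [div_lt_iff₀ h1] at hm
  have h5 : (m : ℝ) ≤ ((m + 1 : ℕ) : ℝ) ^ 2 := by
    push_cast
    nlinarith [(Nat.cast_nonneg m : (0 : ℝ) ≤ m)]
  have h6 := mul_le_mul_of_nonneg_right h5 h1.le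
  linarith

/-- **HTRG** -/
theorem t (hAB : HTAB) : Pool.Agent.Helper92.TG.HTRG := by
  intro K _ _ _ W _ R ac hR H c₀ hH ρ hρ
  obtain ⟨A, B, hcop, hdeg, hrat⟩ := ratK hR ρ hρ
  have hB0 : B ≠ 0 := by
    rintro rfl
    have h1 : IsUnit A := by
      have h2 := hcop
      rwa [isCoprime_zero_right] at h2
    have h3 := natDegree_eq_zero_of_isUnit h1
    omega
  obtain ⟨C, hC⟩ := hAB K A B hcop hB0 hdeg
  have hn : 1 ≤ A.natDegree := by omega
  refine ⟨A.natDegree, hn, fun P => ?_⟩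
  -- bound for the roots
  obtain ⟨C', hC'⟩ : ∃ C' : ℝ, ∀ x : K, eval x B = 0 → logHeight₁ x ≤ C' := by
    refine ⟨∑ y ∈ B.roots.toFinset, logHeight₁ y, fun x hx => ?_⟩
    have h2 : x ∈ B.roots.toFinset := by
      rw [Multiset.mem_toFinset, mem_roots hB0]
      exact hx
    exact Finset.single_le_sum (f := fun y => logHeight₁ y)
      (fun y _ => zero_le_logHeight₁ y) h2
  have hx0 : ∀ P : W.Point, 0 ≤ hx P := fun P => zero_le_logHeight₁ _
  have hnr : (0 : ℝ) ≤ (A.natDegree : ℝ) := Nat.cast_nonneg _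
  -- the claim for `hx`
  have hclaim : ∀ P : W.Point, |hx (acK ac ρ P) - A.natDegree * hx P| ≤
      |C| + A.natDegree * |C'| + (1 + A.natDegree) * logHeight₁ (0 : K) := by
    intro P
    have hz : 0 ≤ logHeight₁ (0 : K) := zero_le_logHeight₁ _
    by_cases hP : P = 0
    · subst hP
      have h1 : acK ac ρ (0 : W.Point) = 0 := map_zero _
      rw [h1]
      have h2 : hx (0 : W.Point) = logHeight₁ (0 : K) := rfl
      rw [h2]
      rw [abs_le]
      constructor <;> nlinarith [abs_nonneg C, abs_nonneg C', mul_nonneg hnr (abs_nonneg C'),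
        mul_nonneg hnr hz]
    · obtain ⟨h1, h2⟩ := hrat P hP
      by_cases h3 : acK ac ρ P = 0
      · rw [h3]
        have h4 := hC' _ (h1.1 h3)
        have h5 : hx (0 : W.Point) = logHeight₁ (0 : K) := rfl
        rw [h5]
        have h6 : hx P ≤ |C'| := h4.trans (le_abs_self _)
        have h7 := mul_le_mul_of_nonneg_left h6 hnr
        have h8 := mul_nonneg hnr (hx0 P)
        rw [abs_le]
        constructor <;> nlinarith [abs_nonneg C, abs_nonneg C', mul_nonneg hnr (abs_nonneg C'),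
          mul_nonneg hnr hz]
      · have h4 : eval (xc P) B ≠ 0 := fun h => h3 (h1.2 h)
        have h5 := h2 h3
        have h6 : xc (acK ac ρ P) = eval (xc P) A / eval (xc P) B := by
          rw [eq_div_iff h4]
          exact h5
        have h7 := hC _ h4
        rw [← h6] at h7
        have h8 : |hx (acK ac ρ P) - A.natDegree * hx P| ≤ C := h7
        have h9 := le_abs_self C
        have h10 := mul_nonneg hnr (abs_nonneg C')
        have h11 : 0 ≤ (1 + (A.natDegree : ℝ)) * logHeight₁ (0 : K) := by positivity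
        linarith
  -- the claim for `H`
  refine quad_eq (fun P => H (acK ac ρ P)) H ?_ ?_ A.natDegree
    (|C| + A.natDegree * |C'| + (1 + A.natDegree) * logHeight₁ (0 : K) + c₀ +
      A.natDegree * c₀) ?_ P
  · intro m x
    have h1 : acK ac ρ (m • x) = m • acK ac ρ x := map_nsmul _ _ _
    show H (acK ac ρ (m • x)) = _
    rw [h1]
    exact hH.quad.nsmul m _
  · intro m x
    exact hH.quad.nsmul m _
  · intro x
    have h1 := hclaim x
    have h2 := hH.near x
    have h3 := hH.near (acK ac ρ x)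
    rw [abs_le] at h1 h2 h3 ⊢
    have h4 := mul_le_mul_of_nonneg_left h2.1 hnr
    have h5 := mul_le_mul_of_nonneg_left h2.2 hnr
    constructor <;> nlinarith

end

end Pool.Agent.Helper33.TG.HTRG
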