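import Pool.Agent.Helper68.TG.GoalsM

/-!
# Project TG (MP_a41896_nt), packet M-MHN
-/

set_option autoImplicit false

namespace Pool.Agent.Helper33.TG.MHN

open Pool.Agent.Helper68.TG.M

theorem ph_affine {K Ω : Type} [Field K] [Field Ω] [Algebra K Ω] (n : ℕ) (A : Polynomial K)
    (p : Fin 2 → Ω) (hp : p 1 = 1) (hn : A.natDegree ≤ n) :
    ph n A p = Polynomial.aeval (p 0) A := by
  unfold ph
  rw [Polynomial.aeval_eq_sum_range' (Nat.lt_succ_of_le hn)]
  refine Finset.sum_congr rfl fun i _ => ?_
  rw [hp, one_pow, mul_one, Algebra.smul_def]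

theorem ph_infty {K Ω : Type} [Field K] [Field Ω] [Algebra K Ω] (n : ℕ) (A : Polynomial K)
    (p : Fin 2 → Ω) (hp : p = ![1, 0]) : ph n A p = algebraMap K Ω (A.coeff n) := by
  unfold ph
  have h0 : p 0 = 1 := by rw [hp]; rfl
  have h1 : p 1 = 0 := by rw [hp]; rfl
  rw [Finset.sum_eq_single n]
  · rw [h0, Nat.sub_self, pow_zero, one_pow, mul_one, mul_one]
  · intro i hi hne
    have hlt : i < n := lt_of_le_of_ne (Nat.lt_succ_iff.1 (Finset.mem_range.1 hi)) hne
    rw [h1, zero_pow (by omega), mul_zero, mul_zero]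
  · intro h
    exact absurd (Finset.self_mem_range_succ n) h

theorem t_MHN : Pool.Agent.Helper68.TG.M.MHN := by
  intro K _ A B hAB Ω _ _ F p r hp hr heq hpa
  rcases hr with hr | hr
  swap
  · rw [hr]
    simpa using (isAlgebraic_one : IsAlgebraic F (1 : Ω))
  obtain ⟨E, hE⟩ : ∃ E : IntermediateField F Ω, E = algebraicClosure F Ω := ⟨_, rfl⟩
  have hK : ∀ x : K, algebraMap K Ω x ∈ E := fun x => by
    have h1 : algebraMap K Ω x ∈ F := F.algebraMap_mem x
    exact E.algebraMap_mem ⟨_, h1⟩
  have p0 : p 0 ∈ E := by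
    rw [hE]
    exact mem_algebraicClosure_iff.2 hpa
  have p1 : p 1 ∈ E := by
    rcases hp with h | h
    · rw [h]; exact E.one_mem
    · rw [h]; exact E.zero_mem
  have hph : ∀ (n : ℕ) (C : Polynomial K), ph n C p ∈ E := by
    intro n C
    unfold ph
    exact sum_mem fun i _ => mul_mem (hK _) (mul_mem (pow_mem p0 _) (pow_mem p1 _))
  have h1 : ph A.natDegree B p * r 0 = ph A.natDegree A p := by
    rw [hr, mul_one] at heq
    exact sub_eq_zero.1 heq
  by_cases hB : ph A.natDegree B p = 0
  · exfalso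
    have hA : ph A.natDegree A p = 0 := by
      rw [← h1, hB, zero_mul]
    rcases hp with h | h
    · rw [ph_affine _ _ _ h hAB.deg.le] at hB
      rw [ph_affine _ _ _ h le_rfl] at hA
      obtain ⟨u, v, huv⟩ := hAB.cop
      have h2 := congrArg (Polynomial.aeval (p 0)) huv
      rw [map_add, map_mul, map_mul, hA, hB, mul_zero, mul_zero, add_zero, map_one] at h2
      exact zero_ne_one h2
    · rw [ph_infty _ _ _ h] at hA
      have h2 : A.coeff A.natDegree = 0 :=
        (map_eq_zero_iff _ (algebraMap K Ω).injective).1 hA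
      have h3 : A ≠ 0 := by
        rintro rfl
        have := hAB.deg
        simp at this
      exact h3 (Polynomial.leadingCoeff_eq_zero.1 h2)
  · have h2 : r 0 = ph A.natDegree A p / ph A.natDegree B p := by
      rw [eq_div_iff hB, mul_comm]
      exact h1
    have h3 : r 0 ∈ E := by
      rw [h2]
      exact div_mem (hph _ _) (hph _ _)
    rw [hE] at h3
    exact mem_algebraicClosure_iff.1 h3

end Pool.Agent.Helper33.TG.MHN
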